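import Pool.Agent.H59.Clock.Main
import Pool.Agent.H71.SD.Main

/-! Closure of `NTIME(Pol t)` under complementation and clockability of `t`, for arbitrary `t`. -/

namespace Pool.Agent.Results.MP_fa4772_lc.ClockTheorem

open Pool.Agent.Lead.NTM Pool.Agent.H71.NT Pool.Agent.H83.NT Pool.Agent.H71.SD Filter
open Pool.Agent.H59.Clock (Obeys IsClock Clockable cone_iff np_iff clockable_of_closed
  closed_iff_clockable_of_sub Pi3Complete pi3Complete_clockable)
open Pool.Agent.H27.LD (Slowly)

theorem result :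
    -- closure under complementation implies clockability
    (∀ (t : ℕ → ℕ) (A : Type) [Finite A], NTIMEPol A t = coNTIMEPol A t → Clockable A t) ∧
    -- `NP = coNP` if and only if the converse always holds
    ((∀ (A : Type) [Finite A], NTIMEPol A (fun n => n) = coNTIMEPol A (fun n => n)) ↔
      ∀ (t : ℕ → ℕ) (A : Type) [Finite A], (NTIMEPol A t = coNTIMEPol A t ↔ Clockable A t)) ∧
    -- the same above every honest time bound `G` with `G (n + 1) ≤ p (G n)`
    (∀ G : ℕ → ℕ, Honest G → (∀ n, n ≤ G n) →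
      (∃ p : Polynomial ℕ, ∀ n, G (n + 1) ≤ p.eval (G n)) →
      ((∀ (A : Type) [Finite A], NTIMEPol A G = coNTIMEPol A G) ↔
        ∀ t : ℕ → ℕ, (∀ n, G n ≤ t n) → ∀ (A : Type) [Finite A],
          (NTIMEPol A t = coNTIMEPol A t ↔ Clockable A t))) ∧
    -- unconditionally: time bounds which are not eventually at least a power `n ^ ε`
    (∀ t : ℕ → ℕ, (∀ k : ℕ, ∃ᶠ n in atTop, t n ^ k < n) → ∀ (A : Type) [Finite A],
      (NTIMEPol A t = coNTIMEPol A t ↔ Clockable A t) ∧
      (NTIMEPol A t = coNTIMEPol A t ↔ NTIMEPol A t = {L | PrefixDetermined L}) ∧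
      (NTIMEPol A t = coNTIMEPol A t ↔ ∀ M : Machine A, Obeys M t →
        ∃ B, ∀ w, Accepts M w → ∃ s ≤ B, AcceptsIn M w s)) ∧
    -- in this case closure means immunity, if the low values of `t` are not too rare
    (∀ t : ℕ → ℕ, (∀ k : ℕ, ∀ᶠ m in atTop, ∃ n ≥ m, t n ^ k < m) →
      ∀ (A : Type) [Finite A] [Nonempty A],
      (NTIMEPol A t = coNTIMEPol A t ↔ ∀ (k : ℕ) (S : Set ℕ), (∀ n ∈ S, n ≤ t n ^ k + k) →
        {w : List A | w.length ∈ S} ∈ NTIMEPol A t → S.Finite)) ∧
    -- and for computable `t ≤ n` closure is `Π⁰₃`-complete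
    (∀ (A : Type) [Finite A] [Nonempty A], Pi3Complete (IndexSet fun t =>
      ((∀ n, t n ≤ n) ∧ ∀ k : ℕ, ∃ᶠ n in atTop, t n ^ k < n) ∧
        NTIMEPol A t = coNTIMEPol A t)) ∧
    -- close to every honest time bound, clockability is `Π⁰₃`-complete
    (∀ G h : ℕ → ℕ, Computable G → Monotone G → (∀ n, n ≤ G n) → Honest G → Slowly h →
      ∀ (A : Type) [Finite A] [Nonempty A], Pi3Complete (IndexSet fun t =>
        (Monotone t ∧ ∀ n, G n ≤ t n ∧ t n ≤ G n ^ h n) ∧ Clockable A t)) := by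
  refine ⟨fun t A _ => clockable_of_closed, np_iff, fun G hG hid hr => cone_iff hG hid hr,
    fun t ht A _ => ⟨closed_iff_clockable_of_sub ht, ?_, ?_⟩, fun t ht A _ _ => ?_,
    fun A _ _ => ⟨isPi3_upper' A, fun _ hS => ?_⟩,
    fun G h hGc hGm hid hGh hh A _ _ => pi3Complete_clockable hGc hGm hid hGh hh A⟩
  · exact eq_comm.trans (closed_iff_trivial ht A)
  · refine (eq_comm.trans (closed_iff_bounded ht A)).trans ⟨fun h M hM => ?_, fun h M k hM => ?_⟩
    · obtain ⟨p, hp⟩ := hM
      obtain ⟨k, hk⟩ : ∃ k, ∀ x, p.eval x ≤ x ^ k + k := by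
        obtain ⟨k, hk⟩ := exists_pow_bound' p
        refine ⟨k + p.eval 0 + p.eval 1, fun x => ?_⟩
        rcases x with _ | _ | x
        · refine le_trans ?_ (Nat.le_add_left _ _)
          omega
        · refine le_trans ?_ (Nat.le_add_left _ _)
          show p.eval 1 ≤ _
          omega
        · have h2 := hk (x + 2) (by omega)
          have h3 : (x + 2) ^ k ≤ (x + 2) ^ (k + p.eval 0 + p.eval 1) :=
            Nat.pow_le_pow_right (by omega) (by omega)
          have h4 : x + 1 + 1 = x + 2 := rfl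
          rw [h4]
          omega
      refine h M k fun w hw => ?_
      obtain ⟨s, hs, ha⟩ := hp w hw
      exact ⟨s, hs.trans (hk _), ha⟩
    · refine h M ⟨Polynomial.X ^ k + Polynomial.C k, fun w hw => ?_⟩
      obtain ⟨s, hs, ha⟩ := hM w hw
      exact ⟨s, by simpa using hs, ha⟩
  · exact eq_comm.trans (closed_iff_finite ht A)
  · obtain ⟨f, hf, h⟩ := index_iff hS
    exact ⟨f, hf, h A⟩

end Pool.Agent.Results.MP_fa4772_lc.ClockTheorem
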