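import Mathlib
import Pool.Agent.H83.SCD.Main
import Pool.Agent.H83.SCL.ClosedExp
import Pool.Agent.H83.SCL.Tw
import Pool.Agent.H83.SCL.Above
import Pool.Agent.H83.SCL.Pt
import Pool.Agent.H83.SCL.UEq

/-! Scales of time bounds: near every uniformly honest scale `G 0 ≤ G 1 ≤ …`, closure of
`NTIME(Pol t)` under complementation for the bounds `t` in the window `G 0 ≤ t ≤ G (h n)` is
`Π⁰₃`-complete for every slow `h`, or impossible for some slow `h`, as decided by the union of the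
classes `NTIME(Pol (G i))`. For exponentially growing scales the first case holds, with
deterministic witnesses. -/

namespace Pool.Agent.Results.MP_fa4772_lc.ClosurePi3Complete

open Pool.Agent.Lead.NTM Pool.Agent.H83.NT Pool.Agent.H83.SCL
open Pool.Agent.H27.LD (Slowly)

theorem result :
    -- (1) unconditional reductions into every window of every scale; with deterministic witnesses
    -- for the exponential scales
    (∀ G : ℕ → ℕ → ℕ, Scale G → ∀ h, Slowly h → ∀ S : Set ℕ, IsPi3 S →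
      ∃ f : ℕ → ℕ, Computable f ∧ ∀ x, ∃ t : ℕ → ℕ,
        (∀ n, t n ∈ (Denumerable.ofNat Nat.Partrec.Code (f x)).eval n) ∧
        StrictMono t ∧ Near G h t ∧
        (x ∈ S → ∀ (A : Type) [Finite A], NTIMEPol A t = UPol A G ∧
          ((∀ i n, 2 ^ G i n ≤ G (i + 1) n) → NTIMEPol A t = DTIMEPol A t)) ∧
        (x ∉ S → ∀ (A : Type) [Finite A] [Nonempty A], ∃ L ∈ NTIMEPol A t,
          Lᶜ ∉ NTIMEPol A t ∧ ((∀ i n, 2 ^ G i n ≤ G (i + 1) n) → L ∈ DTIMEPol A t))) ∧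
    -- (2) the dichotomy, with arbitrary `Π⁰₃` restrictions
    (∀ G : ℕ → ℕ → ℕ, Scale G → ∀ (A : Type) [Finite A] [Nonempty A], List.TFAE [
      ∀ L ∈ UPol A G, Lᶜ ∈ UPol A G,
      ∀ h, Slowly h → ∃ t : ℕ → ℕ, Near G h t ∧ NTIMEPol A t = coNTIMEPol A t,
      ∀ h, Slowly h → ∀ Q : (ℕ → ℕ) → Prop, IsPi3 (IndexSet Q) →
        (∀ t : ℕ → ℕ, Computable t → StrictMono t → Near G h t → Q t) →
        Pi3Complete (IndexSet fun t => Q t ∧ NTIMEPol A t = coNTIMEPol A t)]) ∧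
    (∀ G : ℕ → ℕ → ℕ, Scale G → ∀ h, Slowly h →
      IsPi3 (IndexSet fun t => StrictMono t ∧ Near G h t)) ∧
    IsPi3 (IndexSet fun _ => True) ∧
    -- (3) exponential scales are closed
    (∀ G : ℕ → ℕ → ℕ, Scale G → (∀ i n, 2 ^ G i n ≤ G (i + 1) n) → ∀ (A : Type) [Finite A],
      ∀ L ∈ UPol A G, Lᶜ ∈ UPol A G) ∧
    -- examples of exponential scales: the elementary functions, and above each computable `g`
    (Scale fun i n => (fun s => 2 ^ s)^[i] (n + 4)) ∧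
    (∀ g : ℕ → ℕ, Computable g → ∃ b : ℕ → ℕ, Computable b ∧ (∀ n, g n ≤ b n) ∧
      Scale fun i n => (fun s => 2 ^ s)^[i] (b n)) ∧
    (∀ i m : ℕ, 2 ^ (fun s => 2 ^ s)^[i] m ≤ (fun s => 2 ^ s)^[i + 1] m) ∧
    -- scales of `NP` and `NEXPTIME`
    ((Scale fun i n => (n + 2) ^ 2 ^ i) ∧
      ∀ A : Type, UPol A (fun i n => (n + 2) ^ 2 ^ i) = NTIMEPol A fun n => n) ∧
    ((Scale fun i n => 2 ^ (n + 2) ^ (i + 1)) ∧
      ∀ A : Type, UPol A (fun i n => 2 ^ (n + 2) ^ (i + 1)) =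
        {L | ∃ k : ℕ, L ∈ NTIMEPol A fun n => 2 ^ n ^ k}) :=
  ⟨fun _ hG _ hh _ hS => Pool.Agent.H83.SCD.core hG hh hS,
    fun _ hG A _ _ => Pool.Agent.H83.SCD.tfae hG A,
    fun _ hG _ hh => Pool.Agent.H83.SCD.isPi3_near hG.comp hh.comp, isPi3_total,
    fun _ hG h2 A _ => closed_of_exp hG h2 A, scale_tower, fun _ hg => exists_scale_above hg,
    fun _ _ => (Function.iterate_succ_apply' _ _ _).ge,
    ⟨scale_np, UPol_np⟩, ⟨scale_exp, UPol_exp⟩⟩

end Pool.Agent.Results.MP_fa4772_lc.ClosurePi3Complete
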