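import Mathlib
import Pool.Agent.H27.LD.Main
import Pool.Agent.H83.NHB.Main

/-! The time bounds `t` close to an honest time bound `G ≥ id`, `G ≤ t ≤ G ^ h` with a slowly
growing exponent `h`, for which `NTIME(Pol t)` is closed under complementation: whether there are
any is decided by the single answer at `G`, and if there are, then deciding which `t` they are is
`Π⁰₃`-complete, for every `h`. Moreover above `id` there are, unconditionally, bounds without
closure whose graphs are accepted in time polynomial in `n ^ h n`. -/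

namespace Pool.Agent.Results.MP_fa4772_lc.LocalDichotomy

open Pool.Agent.Lead.NTM Pool.Agent.H71.NT Pool.Agent.H27.LD
open Pool.Agent.H83.NT (IsPi3 IndexSet)
open Pool.Agent.H83.NHB (GraphIn)

/-- The functions between `G` and `G ^ h`. -/
def Near (G h t : ℕ → ℕ) : Prop := ∀ n, G n ≤ t n ∧ t n ≤ G n ^ h n

/-- `S` is `Π⁰₃`-complete under many-one reductions. -/
def Pi3Complete (S : Set ℕ) : Prop :=
  IsPi3 S ∧ ∀ S' : Set ℕ, IsPi3 S' → ∃ f : ℕ → ℕ, Computable f ∧ ∀ x, x ∈ S' ↔ f x ∈ S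

theorem result : Honest (fun n => n) ∧
    (∀ h, Slowly h → ∃ t : ℕ → ℕ, Primrec t ∧ Monotone t ∧ Near (fun n => n) h t ∧
      (∃ᶠ n in Filter.atTop, t n = n) ∧ GraphIn (fun n => n ^ h n) t ∧
      ∀ (A : Type) [Finite A] [Nonempty A], NTIMEPol A t ≠ coNTIMEPol A t) ∧
    ∀ G : ℕ → ℕ, Computable G → Monotone G → (∀ n, n ≤ G n) →
    Honest G →
    (∀ h, Slowly h → ∀ S : Set ℕ, IsPi3 S → ∃ f : ℕ → ℕ, Computable f ∧ ∀ x, ∃ t : ℕ → ℕ,
      (∀ n, t n ∈ (Denumerable.ofNat Nat.Partrec.Code (f x)).eval n) ∧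
      Monotone t ∧ Near G h t ∧ (∃ᶠ n in Filter.atTop, t n = G n) ∧
      (x ∈ S → ∀ (A : Type) [Finite A], NTIMEPol A t = NTIMEPol A G) ∧
      (x ∉ S → ∀ (A : Type) [Finite A] [Nonempty A], NTIMEPol A t ≠ coNTIMEPol A t)) ∧
    ∀ (A : Type) [Finite A] [Nonempty A], List.TFAE [
      NTIMEPol A G = coNTIMEPol A G,
      ∀ h, Slowly h → Pi3Complete
        (IndexSet fun t => (Monotone t ∧ Near G h t) ∧ NTIMEPol A t = coNTIMEPol A t),
      ∀ h, Slowly h → ∃ t : ℕ → ℕ, Near G h t ∧ NTIMEPol A t = coNTIMEPol A t] := by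
  refine ⟨honest_id, fun h hh =>
    Pool.Agent.H83.NHB.near_honest hh.comp hh.mono hh.unbounded hh.one_le, fun G hGc hGm hid hGh => ⟨fun h hh S hS => core hGc hGm hid hGh hh hS,
    fun A _ _ => ?_⟩⟩
  tfae_have 1 → 2 := by
    intro hcl h hh
    refine ⟨isPi3_window_closed hGc hh.comp A, fun S hS => ?_⟩
    obtain ⟨f, hf, hfx⟩ := core hGc hGm hid hGh hh hS
    refine ⟨f, hf, fun x => ?_⟩
    obtain ⟨t, ht, hm, hw, -, h1, h2⟩ := hfx x
    constructor
    · intro hx
      refine ⟨t, ht, ⟨hm, hw⟩, ?_⟩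
      have h3 := h1 hx A
      have h4 : coNTIMEPol A t = coNTIMEPol A G := by
        unfold coNTIMEPol
        rw [h3]
      rw [h3, h4]
      exact hcl
    · rintro ⟨t', ht', -, hc⟩
      by_contra hx
      have h5 : t' = t := funext fun n => Part.mem_unique (ht' n) (ht n)
      subst h5
      exact h2 hx A hc
  tfae_have 2 → 3 := by
    intro hc h hh
    have hu : IsPi3 (Set.univ : Set ℕ) :=
      ⟨fun _ _ _ _ => true, Computable.const true, fun x => by simp⟩
    obtain ⟨f, -, hf⟩ := (hc h hh).2 _ hu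
    obtain ⟨t, -, ⟨-, h1⟩, h2⟩ := (hf 0).1 (Set.mem_univ 0)
    exact ⟨t, h1, h2⟩
  tfae_have 3 → 1 := by
    intro hc
    by_contra hne
    obtain ⟨h, h1, h2, h3, h4, h5⟩ := slow hGc hne
    obtain ⟨t, ht, hcl⟩ := hc h ⟨h1, h2, h3, h4⟩
    exact h5 t ht hcl
  tfae_finish

end Pool.Agent.Results.MP_fa4772_lc.LocalDichotomy
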