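import Mathlib
import Pool.Agent.H10.RQ.Final

/-! The relativised form of Q1: for honest time bounds `t ≥ id` the sets
`{t : NTIME(Pol t) is closed under complementation relative to O}`, `O` an oracle, are exactly the
sets closed under covering; and for every set `𝒯` of functions there is an oracle relative to which
`NTIME(Pol t)` is closed under complementation exactly for the covered bounds, for all computable
`t ≥ id`, honest or not. -/

namespace Pool.Agent.Results.MP_fa4772_lc.RelativizedAnswers

open Pool.Agent.Lead.NTM Pool.Agent.H10.RQ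

theorem result :
    (∀ 𝒜 : Set (ℕ → ℕ), (∀ t ∈ 𝒜, HonestBound t) →
      ((∃ O : Set (List Bool), 𝒜 = {t | HonestBound t ∧ Closed O t}) ↔ CoverClosed 𝒜)) ∧
    ∀ 𝒯 : Set (ℕ → ℕ), ∃ O : Set (List Bool),
      ∀ t : ℕ → ℕ, Computable t → (∀ n, n ≤ t n) →
        (∀ (A : Type) [Finite A] [Nontrivial A],
          ONTIME O A t = OcoNTIME O A t ↔ Covered 𝒯 t) ∧
        (Covered 𝒯 t → ∀ (A : Type) [Finite A],
          ONTIME O A t = OcoNTIME O A t ∧ ONTIME O A t = ODTIME O A t) :=
  ⟨classification, main_computable⟩

end Pool.Agent.Results.MP_fa4772_lc.RelativizedAnswers
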